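import Pool.Agent.N833.P21.CB

/-!
# P21-C2 (helper833, after helper295): `3` inert, `7` split
-/

set_option autoImplicit false

namespace Pool.Agent.N833.P21

open Finset
open Pool.Agent.Z700 (hh fac)
open Pool.Agent.Y574.Z7 (chp chp_mul chp_one chp_self chp_nd chp_sq chp_pm jac_eq sum_local two_pt
  one_sum alt_sum dvd_fac nd4 fac_D mem_D chp_D jac_prod chp_prod)
open Pool.Agent.N969.P15 (Ev tw tb ep2 psp psp2 c2)
open Pool.Agent.N877.P21
open Pool.Agent.N295.P15 (dvd_iff' Ff mem_ST alt_zero dvd_cn fac4 chp4 fac_ST pf_four tw_eq fac42)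
open Pool.Agent.N295.P15.E (cq kq Ps wq pq Ps_one Ps_fac Ps_pm cq_sq kq_sq cq_two cq_odd cq_mul eT eS
  eT_sq eS_sq pow_sq pq_eq oc_nd pf_prime pf_dvd podd)

variable {n : ℕ}

/-! ### the local weights -/

/-- the local weights -/
def Wv (n S T l i j : ℕ) : ℤ :=
  Ps n l ^ (i + j) * (if l ∈ n.primeFactors then wq n S T l i j else 1) *
    (if l = 7 then (if 1 ≤ i then 1 else 0) else 1) *
    (if l = 3 then (if 1 ≤ j then 1 else 0) else 1)

/-- the divisor sum -/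
def WV (n S T : ℕ) : ℤ :=
  ∑ a ∈ S.divisors.filter (7 ∣ ·), ∑ a' ∈ T.divisors.filter (3 ∣ ·),
    ∏ p ∈ n.primeFactors, pq n p a a' (S / a) (T / a')

theorem WV_odd (h : Pool.Agent.N295.P15.Fd n) (S T : ℕ) : WW n S T = WV n S T := by
  unfold WW WV
  refine Finset.sum_congr rfl fun a _ => Finset.sum_congr rfl fun a' _ => ?_
  exact Finset.prod_congr rfl fun p hp => (if_neg (h.ne2 hp)).symm

theorem WV_ev (h : Pool.Agent.N295.P15.E.Fd n) (S T : ℕ) : WWe n S T = WV n S T := by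
  unfold WWe WV
  refine Finset.sum_congr rfl fun a _ => Finset.sum_congr rfl fun a' _ => ?_
  rw [← Finset.mul_prod_erase _ _ h.mem2]
  congr 1
  exact Finset.prod_congr rfl fun q hq => (if_neg (Finset.ne_of_mem_erase hq)).symm

theorem term_eqV {c S T : ℕ} (hS : S ≠ 0) (hT : T ≠ 0)
    (hST : S + T = c * n) {a a' : ℕ} (ha : a ∣ S) (ha' : a' ∣ T) :
    (if 7 ∣ a then (if 3 ∣ a' then
      ∏ p ∈ n.primeFactors, pq n p a a' (S / a) (T / a') else 0) else 0) =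
      ∏ l ∈ QQ n S T, Wv n S T l (a.factorization l) (a'.factorization l) := by
  classical
  have a0 : a ≠ 0 := by rintro rfl; exact hS (zero_dvd_iff.1 ha)
  have b0 : a' ≠ 0 := by rintro rfl; exact hT (zero_dvd_iff.1 ha')
  have hsa : a.primeFactors ⊆ QQ n S T :=
    (Nat.primeFactors_mono (ha.mul_right T) (mul_ne_zero hS hT)).trans pf_QQ
  have hsb : a'.primeFactors ⊆ QQ n S T :=
    (Nat.primeFactors_mono (ha'.mul_left S) (mul_ne_zero hS hT)).trans pf_QQ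
  unfold Wv
  rw [Finset.prod_mul_distrib, Finset.prod_mul_distrib, Finset.prod_mul_distrib]
  have e1 : ∏ l ∈ QQ n S T, Ps n l ^ (a.factorization l + a'.factorization l) =
      Ps n a * Ps n a' := by
    rw [Ps_fac n (QQ n S T) a a0 hsa, Ps_fac n (QQ n S T) a' b0 hsb,
      ← Finset.prod_mul_distrib]
    exact Finset.prod_congr rfl fun l _ => pow_add _ _ _
  have e2 : ∏ l ∈ QQ n S T, (if l ∈ n.primeFactors then
      wq n S T l (a.factorization l) (a'.factorization l) else 1) =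
      ∏ l ∈ n.primeFactors, wq n S T l (a.factorization l) (a'.factorization l) := by
    rw [Finset.prod_ite_mem, Finset.inter_eq_right.2 sub_QQ]
  have e3 : ∏ l ∈ QQ n S T, (if l = 7 then (if 1 ≤ a.factorization l then (1 : ℤ) else 0) else 1) =
      if 7 ∣ a then 1 else 0 := by
    rw [Finset.prod_ite_eq' (QQ n S T) 7 (fun l => if 1 ≤ a.factorization l then (1 : ℤ) else 0),
      if_pos mem_QQ7]
    simp only [dvd_fac p7 a0]
  have e4 : ∏ l ∈ QQ n S T, (if l = 3 then (if 1 ≤ a'.factorization l then (1 : ℤ) else 0) else 1) =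
      if 3 ∣ a' then 1 else 0 := by
    rw [Finset.prod_ite_eq' (QQ n S T) 3 (fun l => if 1 ≤ a'.factorization l then (1 : ℤ) else 0),
      if_pos mem_QQ3]
    simp only [dvd_fac Nat.prime_three b0]
  rw [e1, e2, e3, e4]
  have e5 : ∏ p ∈ n.primeFactors, pq n p a a' (S / a) (T / a') =
      Ps n a * Ps n a' *
        ∏ l ∈ n.primeFactors, wq n S T l (a.factorization l) (a'.factorization l) := by
    unfold Ps
    rw [← Finset.prod_mul_distrib, ← Finset.prod_mul_distrib]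
    exact Finset.prod_congr rfl fun p hp => pq_eq (pf_prime hp) hS hT
      (dvd_iff' hST hp) ha ha'
  rw [e5]
  split_ifs <;> simp

/-- the sum of the local weights -/
def Lv (n S T l : ℕ) : ℤ :=
  ∑ i ∈ range (S.factorization l + 1), ∑ j ∈ range (T.factorization l + 1), Wv n S T l i j

theorem WV_eq {c S T : ℕ} (hS : S ≠ 0) (hT : T ≠ 0) (hST : S + T = c * n) :
    WV n S T = ∏ l ∈ QQ n S T, Lv n S T l := by
  unfold Lv
  rw [← sum_local (Wv n S T) (QQ n S T) QQ_prime S T hS hT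
    (fun l hl hd => pf_QQ (Nat.mem_primeFactors.2 ⟨hl, hd.mul_right T, mul_ne_zero hS hT⟩))
    (fun l hl hd => pf_QQ (Nat.mem_primeFactors.2 ⟨hl, hd.mul_left S, mul_ne_zero hS hT⟩))]
  unfold WV
  rw [Finset.sum_filter]
  refine Finset.sum_congr rfl fun a ha => ?_
  rw [Finset.sum_filter]
  have ha1 := Nat.dvd_of_mem_divisors ha
  have h1 : ∀ a' ∈ T.divisors, ∏ l ∈ QQ n S T, Wv n S T l (a.factorization l) (a'.factorization l) =
      (if 7 ∣ a then (if 3 ∣ a' then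
      ∏ p ∈ n.primeFactors, pq n p a a' (S / a) (T / a') else 0) else 0) :=
    fun a' ha' => (term_eqV hS hT hST ha1 (Nat.dvd_of_mem_divisors ha')).symm
  rw [Finset.sum_congr rfl h1]
  by_cases h2 : 7 ∣ a
  · simp only [h2, if_true]
  · simp only [h2, if_false, Finset.sum_const_zero]

theorem Lv_eq {S T l : ℕ} (hl : l ≠ 7) : Lv n S T l = Ls n S T l := by
  unfold Lv Ls Wv Wl
  simp only [if_neg hl]

theorem Lv_seven (h : G n) {S T : ℕ} (h7 : 7 ∉ n.primeFactors) (hT7 : ¬ 7 ∣ T) :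
    Lv n S T 7 = (S.factorization 7 : ℤ) := by
  unfold Lv
  rw [Nat.factorization_eq_zero_of_not_dvd hT7, zero_add, ← one_sum]
  refine Finset.sum_congr rfl fun i _ => ?_
  rw [Finset.sum_range_one]
  unfold Wv
  rw [if_neg h7, if_pos rfl, if_neg (by norm_num : (7 : ℕ) ≠ 3), h.Ps_seven h7, one_pow]
  ring

/-- the relation of the two divisor sums -/
theorem WV_WG (h : G n) {c S T : ℕ} (hS : S ≠ 0) (hT : T ≠ 0) (hST : S + T = c * n)
    (h7 : 7 ∉ n.primeFactors) (hT7 : ¬ 7 ∣ T) :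
    WV n S T = (S.factorization 7 : ℤ) * WG n S T := by
  rw [WV_eq hS hT hST, WG_eq hS hT hST, split_QQ, split_QQ, Lv_eq (by norm_num : 2 ≠ 7),
    Lv_eq (by norm_num : 3 ≠ 7), Lv_seven h h7 hT7, Ls_seven hST (fun _ => hT7)]
  have e1 : ∏ l ∈ Q' n S T, Lv n S T l = ∏ l ∈ Q' n S T, Ls n S T l :=
    Finset.prod_congr rfl fun l hl => Lv_eq (mem_Q' hl).2.2.1
  have e2 : eT' n T 7 = 1 := if_neg h7
  rw [e1, e2]
  ring

/-! ### the evaluation -/

theorem lrest_eq {D : ℕ} :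
    lrest n D = if Odd (D.factorization 3) then tw n D * R1 n D else 0 := rfl

theorem prepV {n c S T : ℕ} (hc : c = 1 ∨ c = 2) (h7 : Sp7 n) (h3 : n % 3 = 1)
    (hST : S + T = c * n) (hT3 : 3 ∣ T) (hS7 : 7 ∣ S) :
    ¬ 7 ∣ T ∧ ¬ 3 ∣ S ∧ 3 ∉ n.primeFactors ∧ 7 ∉ n.primeFactors := by
  refine ⟨fun h => ?_, fun h => ?_, fun h => ?_, fun h => ?_⟩
  · have h6 : 7 ∣ c * n := hST ▸ dvd_add hS7 h
    have := dvd_cn hc p7 (by norm_num) h6
    rcases h7 with h7 | h7 | h7 <;> omega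
  · have h6 : 3 ∣ c * n := hST ▸ dvd_add h hT3
    have := dvd_cn hc Nat.prime_three (by norm_num) h6
    omega
  · have := Nat.dvd_of_mem_primeFactors h
    omega
  · have := Nat.dvd_of_mem_primeFactors h
    rcases h7 with h7 | h7 | h7 <;> omega

theorem v7 {S T : ℕ} (hS : S ≠ 0) (hT : T ≠ 0) (h7 : ¬ 7 ∣ T) :
    (S * T).factorization 7 = S.factorization 7 := by
  rw [fac_ST hS hT, Nat.factorization_eq_zero_of_not_dvd h7, add_zero]

theorem v74 {S T : ℕ} (hS : S ≠ 0) (hT : T ≠ 0) (h7 : ¬ 7 ∣ T) :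
    (4 * (S * T)).factorization 7 = S.factorization 7 := by
  rw [fac4 (mul_ne_zero hS hT) p7 (by norm_num), v7 hS hT h7]

theorem of_Cls0 (hn : Cls0 n) : Pool.Agent.N295.P15.Fd n ∧ G n := by
  obtain ⟨h1, h2, h3, h4⟩ := hn
  exact ⟨⟨h1, h2⟩, G_odd ⟨h1, h2⟩ (Or.inr h4) (Or.inr h3)⟩

theorem t_C2A : S_C2A := by
  intro n hn T hT0 hTn hT3 hS7
  obtain ⟨hf, h⟩ := of_Cls0 hn
  obtain ⟨S, hSdef⟩ : ∃ S, S = n - T := ⟨_, rfl⟩
  rw [← hSdef] at hS7 ⊢
  have hST : S + T = 1 * n := by omega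
  have hS : S ≠ 0 := by omega
  have hT : T ≠ 0 := by omega
  have hST0 := mul_ne_zero hS hT
  obtain ⟨hT7, hS3, h3, h7⟩ := prepV (Or.inl rfl) hn.2.2.2 hn.2.2.1 hST hT3 hS7
  unfold loc7
  rw [WV_odd hf, WV_WG h hS hT hST h7 hT7, val_A h (Or.inl rfl) hS hT hST (fun _ => hT7) hT3 h3,
    mul_assoc 4 S T, lrest_eq, v54 hS hT hS3, v74 hS hT hT7, R1_four h hST0, tw_A hf hS hT hST,
    prod_Ff]
  unfold R1
  split_ifs <;> ring

theorem t_C2B : S_C2B := by
  intro n hn T hT0 hTn hT3 hS7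
  obtain ⟨hf, h⟩ := of_Cls0 hn
  obtain ⟨S, hSdef⟩ : ∃ S, S = 2 * n - T := ⟨_, rfl⟩
  rw [← hSdef] at hS7 ⊢
  have hST : S + T = 2 * n := by omega
  have hS : S ≠ 0 := by omega
  have hT : T ≠ 0 := by omega
  have hST0 := mul_ne_zero hS hT
  obtain ⟨hT7, hS3, h3, h7⟩ := prepV (Or.inr rfl) hn.2.2.2 hn.2.2.1 hST hT3 hS7
  unfold loc7
  rw [WV_odd hf, WV_WG h hS hT hST h7 hT7, val_A h (Or.inr rfl) hS hT hST (fun _ => hT7) hT3 h3,
    mul_assoc 4 S T, lrest_eq, lrest_eq, v54 hS hT hS3, v5 hS hT hS3, v74 hS hT hT7, v7 hS hT hT7,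
    R1_four h hST0, tw_B hf hS hT hST, prod_Ff]
  unfold R1
  split_ifs <;> ring

theorem t_C2E : S_C2E := by
  intro n hn N hN T hT0 hTn hT3 hS7
  obtain ⟨h1, h2, h3⟩ := hn
  have hf : Pool.Agent.N295.P15.E.Fd n := ⟨h1⟩
  have h := G_ev hf (Or.inr h3) (Or.inr h2)
  obtain ⟨S, hSdef⟩ : ∃ S, S = N - T := ⟨_, rfl⟩
  rw [← hSdef] at hS7 ⊢
  have hS : S ≠ 0 := by omega
  have hT : T ≠ 0 := by omega
  have hST0 := mul_ne_zero hS hT
  have key : ∀ c : ℕ, (c = 1 ∨ c = 2) → S + T = c * n →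
      WWe n S T = - loc7E n ((T : ℤ) - (S : ℤ)) (4 * S * T) := by
    intro c hc hST
    obtain ⟨hT7, hS3, h3', h7⟩ := prepV hc h3 h2 hST hT3 hS7
    have htb : tb ((T : ℤ) - (S : ℤ)) = if 2 ∣ T then 2 else 1 := by
      have h4 : (4 : ℤ) ∣ (S : ℤ) + T := by
        have h5 : 4 ∣ S + T := by rw [hST]; exact hf.four.mul_left c
        exact_mod_cast h5
      unfold tb
      by_cases h2 : 2 ∣ T
      · rw [if_pos (by omega), if_pos h2]
      · rw [if_neg (by omega), if_pos (by omega), if_neg h2]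
    have e0 : loc7E n ((T : ℤ) - (S : ℤ)) (4 * (S * T)) =
        if Odd ((4 * (S * T)).factorization 3) then
          ((4 * (S * T)).factorization 7 : ℤ) * (tb ((T : ℤ) - (S : ℤ)) * R1 n (4 * (S * T))) else 0 :=
      rfl
    rw [WV_ev hf, WV_WG h hS hT hST h7 hT7, val_A h hc hS hT hST (fun _ => hT7) hT3 h3',
      mul_assoc 4 S T, e0, v54 hS hT hS3, v74 hS hT hT7, R1_four h hST0, M2_even hf.mem2, htb,
      prod_Ff]
    unfold R1
    split_ifs <;> ring
  rcases hN with hN | hN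
  · exact key 1 (Or.inl rfl) (by omega)
  · exact key 2 (Or.inr rfl) (by omega)

end Pool.Agent.N833.P21
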